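import Pool.Agent.X191.BA.LLN

set_option autoImplicit false

open Finset Filter Topology MeasureTheory
open scoped ENNReal NNReal

namespace Pool.Agent.X191.BA

open Classical in
/-- number of the `p ∈ [1, n]` with `ω ∈ A p` -/
noncomputable def cnt {Ω : Type*} (A : ℕ → Set Ω) (ω : Ω) (n : ℕ) : ℕ :=
  ((Icc 1 n).filter fun p => ω ∈ A p).card

theorem cnt_eq {Ω : Type*} (A : ℕ → Set Ω) (ω : Ω) (n : ℕ) :
    (cnt A ω n : ℝ) = ∑ p ∈ Icc 1 n, (A p).indicator (fun _ => (1 : ℝ)) ω := by
  classical
  unfold cnt
  rw [Finset.card_filter]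
  push_cast
  apply Finset.sum_congr rfl
  intro p _
  simp only [Set.indicator_apply]

theorem second_moment {Ω : Type*} [MeasurableSpace Ω] (m : Measure Ω) [IsProbabilityMeasure m]
    (A : ℕ → Set Ω) (hA : ∀ p, MeasurableSet (A p)) (k : ℕ)
    (hind : ∀ i j, i + k ≤ j → m.real (A i ∩ A j) = m.real (A i) * m.real (A j)) (n : ℕ) :
    ∫⁻ ω, ENNReal.ofReal (((cnt A ω n : ℝ) - ∑ p ∈ Icc 1 n, m.real (A p)) ^ 2) ∂m ≤
      ENNReal.ofReal ((2 * k : ℕ) * ∑ p ∈ Icc 1 n, m.real (A p)) := by
  classical
  set I : ℕ → Ω → ℝ := fun p => (A p).indicator (fun _ => (1 : ℝ)) with hI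
  have hImeas : ∀ p, Measurable (I p) := fun p => measurable_const.indicator (hA p)
  have hIint : ∀ p, Integrable (I p) m := fun p => (integrable_const (1 : ℝ)).indicator (hA p)
  have hII : ∀ p p', (fun ω => I p ω * I p' ω) = (A p ∩ A p').indicator (fun _ => (1 : ℝ)) := by
    intro p p'
    ext ω
    simp only [hI, Set.indicator_apply, Set.mem_inter_iff]
    by_cases h1 : ω ∈ A p <;> by_cases h2 : ω ∈ A p' <;> simp [h1, h2]
  have hIIint : ∀ p p', Integrable (fun ω => I p ω * I p' ω) m := by
    intro p p'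
    rw [hII]
    exact (integrable_const (1 : ℝ)).indicator ((hA p).inter (hA p'))
  have hintI : ∀ p, ∫ ω, I p ω ∂m = m.real (A p) := by
    intro p
    simp only [hI]
    rw [integral_indicator (hA p)]
    simp
  have hintII : ∀ p p', ∫ ω, I p ω * I p' ω ∂m = m.real (A p ∩ A p') := by
    intro p p'
    rw [hII, integral_indicator ((hA p).inter (hA p'))]
    simp
  have hprodint : ∀ p p', Integrable (fun ω => (I p ω - m.real (A p)) * (I p' ω - m.real (A p'))) m := by
    intro p p'
    have : (fun ω => (I p ω - m.real (A p)) * (I p' ω - m.real (A p'))) =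
        fun ω => I p ω * I p' ω - m.real (A p') * I p ω - m.real (A p) * I p' ω +
          m.real (A p) * m.real (A p') := by
      ext ω; ring
    rw [this]
    exact (((hIIint p p').sub ((hIint p).const_mul _)).sub ((hIint p').const_mul _)).add (integrable_const _)
  have hcov : ∀ p p', ∫ ω, (I p ω - m.real (A p)) * (I p' ω - m.real (A p')) ∂m =
      m.real (A p ∩ A p') - m.real (A p) * m.real (A p') := by
    intro p p'
    have : (fun ω => (I p ω - m.real (A p)) * (I p' ω - m.real (A p'))) =
        fun ω => I p ω * I p' ω - m.real (A p') * I p ω - m.real (A p) * I p' ω +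
          m.real (A p) * m.real (A p') := by
      ext ω; ring
    have i1 : Integrable (fun ω => m.real (A p') * I p ω) m := (hIint p).const_mul _
    have i2 : Integrable (fun ω => m.real (A p) * I p' ω) m := (hIint p').const_mul _
    have i3 : Integrable (fun ω => I p ω * I p' ω - m.real (A p') * I p ω) m := (hIIint p p').sub i1
    have i4 : Integrable (fun ω => I p ω * I p' ω - m.real (A p') * I p ω - m.real (A p) * I p' ω) m :=
      i3.sub i2
    rw [this, integral_add i4 (integrable_const _), integral_sub i3 i2,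
      integral_sub (hIIint p p') i1, integral_const_mul, integral_const_mul,
      hintI, hintI, hintII]
    simp only [integral_const, probReal_univ, smul_eq_mul]
    ring
  have hexp : ∀ ω, ((cnt A ω n : ℝ) - ∑ p ∈ Icc 1 n, m.real (A p)) ^ 2 =
      ∑ p ∈ Icc 1 n, ∑ p' ∈ Icc 1 n, (I p ω - m.real (A p)) * (I p' ω - m.real (A p')) := by
    intro ω
    rw [cnt_eq, ← Finset.sum_sub_distrib, sq, Finset.sum_mul_sum]
  have hval : ∫ ω, ((cnt A ω n : ℝ) - ∑ p ∈ Icc 1 n, m.real (A p)) ^ 2 ∂m ≤
      (2 * k : ℕ) * ∑ p ∈ Icc 1 n, m.real (A p) := by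
    simp_rw [hexp]
    rw [integral_finsetSum _ (fun p _ => integrable_finsetSum _ fun p' _ => hprodint p p')]
    rw [Finset.mul_sum]
    apply Finset.sum_le_sum
    intro p _
    rw [integral_finsetSum _ (fun p' _ => hprodint p p')]
    simp_rw [hcov]
    calc ∑ p' ∈ Icc 1 n, (m.real (A p ∩ A p') - m.real (A p) * m.real (A p')) ≤
        ∑ p' ∈ Icc 1 n, (if p' ∈ Ico (p + 1 - k) (p + k) then m.real (A p) else 0) := by
          apply Finset.sum_le_sum
          intro p' _
          split_ifs with h
          · have h1 : m.real (A p ∩ A p') ≤ m.real (A p) := measureReal_mono Set.inter_subset_left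
            have h2 : 0 ≤ m.real (A p) * m.real (A p') := by positivity
            linarith
          · rw [mem_Ico] at h
            rcases Nat.lt_or_ge p' (p + 1 - k) with h1 | h1
            · have h2 := hind p' p (by omega)
              rw [Set.inter_comm] at h2
              rw [h2]
              linarith [mul_comm (m.real (A p)) (m.real (A p'))]
            · rw [hind p p' (by omega)]
              linarith
      _ = ((Icc 1 n).filter (· ∈ Ico (p + 1 - k) (p + k))).card * m.real (A p) := by
          rw [← Finset.sum_filter, Finset.sum_const, nsmul_eq_mul]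
      _ ≤ (2 * k : ℕ) * m.real (A p) := by
          apply mul_le_mul_of_nonneg_right _ (by positivity)
          have h1 : ((Icc 1 n).filter (· ∈ Ico (p + 1 - k) (p + k))) ⊆ Ico (p + 1 - k) (p + k) := by
            intro x hx
            exact (mem_filter.mp hx).2
          have h2 := card_le_card h1
          rw [Nat.card_Ico] at h2
          exact_mod_cast h2.trans (by omega)
  have hint : Integrable (fun ω => ((cnt A ω n : ℝ) - ∑ p ∈ Icc 1 n, m.real (A p)) ^ 2) m := by
    have : (fun ω => ((cnt A ω n : ℝ) - ∑ p ∈ Icc 1 n, m.real (A p)) ^ 2) =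
      fun ω => ∑ p ∈ Icc 1 n, ∑ p' ∈ Icc 1 n, (I p ω - m.real (A p)) * (I p' ω - m.real (A p')) :=
        funext hexp
    rw [this]
    exact integrable_finsetSum _ fun p _ => integrable_finsetSum _ fun p' _ => hprodint p p'
  rw [← ofReal_integral_eq_lintegral_ofReal hint (ae_of_all _ fun ω => sq_nonneg _)]
  exact ENNReal.ofReal_le_ofReal hval

theorem lln_dep {Ω : Type*} [MeasurableSpace Ω] (m : Measure Ω) [IsProbabilityMeasure m]
    (A : ℕ → Set Ω) (hA : ∀ p, MeasurableSet (A p)) (k : ℕ)
    (hind : ∀ i j, i + k ≤ j → m.real (A i ∩ A j) = m.real (A i) * m.real (A j))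
    (hW : Tendsto (fun n => ∑ p ∈ Icc 1 n, m.real (A p)) atTop atTop) :
    ∀ᵐ ω ∂m, Tendsto (fun n => (cnt A ω n : ℝ) / ∑ p ∈ Icc 1 n, m.real (A p)) atTop (𝓝 1) := by
  classical
  refine lln_of_second_moment m (fun n ω => (cnt A ω n : ℝ)) ?_ ?_ (fun n ω => by positivity)
    (fun n => ∑ p ∈ Icc 1 n, m.real (A p)) (by simp) ?_ ?_ hW ((2 * k : ℕ) : ℝ) (by positivity)
    (second_moment m A hA k hind)
  · intro n
    simp_rw [cnt_eq]
    exact Finset.measurable_fun_sum _ fun p _ => measurable_const.indicator (hA p)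
  · intro ω a b hab
    simp only
    unfold cnt
    exact_mod_cast card_le_card (filter_subset_filter _ (Icc_subset_Icc_right hab))
  · apply monotone_nat_of_le_succ
    intro n
    rw [Finset.sum_Icc_succ_top (by omega)]
    have : 0 ≤ m.real (A (n + 1)) := by positivity
    linarith
  · intro n
    rw [Finset.sum_Icc_succ_top (by omega)]
    have : m.real (A (n + 1)) ≤ 1 := measureReal_le_one
    linarith

end Pool.Agent.X191.BA
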