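import Pool.Agent.X191.BA.Meas

set_option autoImplicit false

open Finset Filter Topology MeasureTheory
open scoped ENNReal NNReal

namespace Pool.Agent.X191.BA

open Pool.Agent.X191.NS (P digit P_zero P_succ P_pos two_pow_le_P P_mono floor_step digit_lt)

variable {q : ℕ → ℕ}

theorem tendsto_ratio_zero (hq2 : ∀ n, 2 ≤ q n) (hq : Tendsto q atTop atTop) {t : ℝ} (ht : 0 < t) :
    Tendsto (fun n => (2 : ℝ) ^ n / (P q n : ℝ) ^ t) atTop (𝓝 0) := by
  have hPpos : ∀ n, (0 : ℝ) < P q n := fun n => by exact_mod_cast P_pos hq2 n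
  have hqpos : ∀ n, (0 : ℝ) < q n := fun n => by have := hq2 n; exact_mod_cast (by omega : 0 < q n)
  refine (summable_of_ratio_test_tendsto_lt_one (l := 0) one_pos ?_ ?_).tendsto_atTop_zero
  · refine Eventually.of_forall fun n => ?_
    have := Real.rpow_pos_of_pos (hPpos n) t
    positivity
  · have h1 : Tendsto (fun n => 2 / ((q (n + 1) : ℝ)) ^ t) atTop (𝓝 0) := by
      apply Tendsto.div_atTop tendsto_const_nhds
      exact (tendsto_rpow_atTop ht).comp (tendsto_natCast_atTop_atTop.comp (hq.comp (tendsto_add_atTop_nat 1)))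
    refine h1.congr fun n => ?_
    have h2 := Real.rpow_pos_of_pos (hPpos n) t
    have h3 := Real.rpow_pos_of_pos (hqpos (n + 1)) t
    have h4 := Real.rpow_pos_of_pos (hPpos (n + 1)) t
    rw [Real.norm_of_nonneg (by positivity), Real.norm_of_nonneg (by positivity)]
    have h5 : (P q (n + 1) : ℝ) ^ t = (P q n : ℝ) ^ t * (q (n + 1) : ℝ) ^ t := by
      rw [P_succ]
      push_cast
      exact Real.mul_rpow (hPpos n).le (hqpos _).le
    rw [h5, pow_succ]
    field_simp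

/-- mass of a cylinder -/
theorem cyl_le (hq2 : ∀ n, 2 ≤ q n) (Φ : (ℕ → ℕ) → ℕ → ℕ) (A : Set (ℕ → ℕ))
    (g : ℕ → ℕ → ℕ) (hg : ∀ ω ∈ A, ∀ n, ω n = Φ ω n ∨ ω n = g n (Φ ω n)) (n : ℕ) (e : ℕ → ℕ) :
    μ q {ω | ω ∈ A ∧ ∀ i, 1 ≤ i → i ≤ n → Φ ω i = e i} ≤ 2 ^ n / P q n := by
  calc μ q {ω | ω ∈ A ∧ ∀ i, 1 ≤ i → i ≤ n → Φ ω i = e i} ≤
      μ q (Set.pi (Icc 1 n : Finset ℕ) (fun i => {e i, g i (e i)})) := by
        apply measure_mono
        rintro ω ⟨hω, h⟩ i hi
        rw [Finset.mem_coe, mem_Icc] at hi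
        have h1 := h i hi.1 hi.2
        rcases hg ω hω i with h2 | h2
        · rw [h1] at h2; simp [h2]
        · rw [h1] at h2; simp [h2]
    _ = ∏ i ∈ Icc 1 n, unif (q i) {e i, g i (e i)} := μ_pi _ _ _
    _ ≤ ∏ i ∈ Icc 1 n, (2 / q i : ℝ≥0∞) := Finset.prod_le_prod' fun i _ =>
        unif_pair_le (by have := hq2 i; omega) _ _
    _ = 2 ^ n / P q n := by
        have : ∀ n : ℕ, ∏ i ∈ Icc 1 n, (2 / q i : ℝ≥0∞) = 2 ^ n / P q n := by
          intro n
          induction n with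
          | zero => simp [P_zero]
          | succ n ih =>
            rw [Finset.prod_Icc_succ_top (by omega), ih, P_succ, pow_succ]
            push_cast
            rw [ENNReal.div_eq_inv_mul, ENNReal.div_eq_inv_mul, ENNReal.div_eq_inv_mul,
              ENNReal.mul_inv (Or.inr (by simp)) (Or.inl (by simp))]
            ring
        exact this n

theorem dim_one (hq2 : ∀ n, 2 ≤ q n) (hq : Tendsto q atTop atTop) (Φ : (ℕ → ℕ) → ℕ → ℕ)
    (A : Set (ℕ → ℕ)) (hA : μ q A ≠ 0) (hΦ1 : ∀ ω ∈ A, ∀ n, Φ ω n < q n)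
    (hΦ2 : ∀ ω ∈ A, ∃ᶠ n in atTop, Φ ω n + 1 < q n)
    (g : ℕ → ℕ → ℕ) (hg : ∀ ω ∈ A, ∀ n, ω n = Φ ω n ∨ ω n = g n (Φ ω n)) :
    dimH ((fun ω => val q (Φ ω)) '' A) = 1 := by
  have hPpos : ∀ n, (0 : ℝ) < P q n := fun n => by exact_mod_cast P_pos hq2 n
  set ψ : (ℕ → ℕ) → ℝ := fun ω => val q (Φ ω) with hψ
  apply le_antisymm
  · calc dimH (ψ '' A) ≤ dimH (Set.univ : Set ℝ) := dimH_mono (Set.subset_univ _)
      _ = 1 := Real.dimH_univ
  -- mass of an interval
  have hI : ∀ (n : ℕ) (a d : ℝ), 0 ≤ d →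
      μ q (ψ ⁻¹' (Set.Icc a (a + d)) ∩ A) ≤ ENNReal.ofReal ((d * P q n + 2) * (2 ^ n / P q n)) := by
    intro n a d hd
    set F : Finset ℤ := Icc ⌊(P q n : ℝ) * a⌋ ⌊(P q n : ℝ) * (a + d)⌋ with hF
    have hsub : ψ ⁻¹' (Set.Icc a (a + d)) ∩ A ⊆
        ⋃ v ∈ F, {ω | ω ∈ A ∧ ⌊(P q n : ℝ) * ψ ω⌋ = v} := by
      rintro ω ⟨hω, hωA⟩
      simp only [Set.mem_iUnion]
      refine ⟨⌊(P q n : ℝ) * ψ ω⌋, ?_, hωA, rfl⟩
      rw [hF, mem_Icc]
      exact ⟨Int.floor_le_floor (mul_le_mul_of_nonneg_left hω.1 (hPpos n).le),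
        Int.floor_le_floor (mul_le_mul_of_nonneg_left hω.2 (hPpos n).le)⟩
    have hcyl : ∀ v, μ q {ω | ω ∈ A ∧ ⌊(P q n : ℝ) * ψ ω⌋ = v} ≤ 2 ^ n / P q n := by
      intro v
      rcases Set.eq_empty_or_nonempty {ω | ω ∈ A ∧ ⌊(P q n : ℝ) * ψ ω⌋ = v} with h | ⟨ω0, h1, h2⟩
      · rw [h]; simp
      · refine le_trans (measure_mono ?_) (cyl_le hq2 Φ A g hg n (Φ ω0))
        rintro ω ⟨h3, h4⟩
        refine ⟨h3, ?_⟩
        have h5 : ⌊(P q n : ℝ) * val q (Φ ω)⌋ = ⌊(P q n : ℝ) * val q (Φ ω0)⌋ := h4.trans h2.symm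
        rw [floor_val hq2 (hΦ1 ω h3) (hΦ2 ω h3), floor_val hq2 (hΦ1 ω0 h1) (hΦ2 ω0 h1)] at h5
        exact V_inj (hΦ1 ω h3) (hΦ1 ω0 h1) n (by exact_mod_cast h5)
    have hcard : (F.card : ℝ) ≤ d * P q n + 2 := by
      rw [hF, Int.card_Icc]
      have h1 := Int.floor_le ((P q n : ℝ) * (a + d))
      have h2 := Int.lt_floor_add_one ((P q n : ℝ) * a)
      have h3 : ⌊(P q n : ℝ) * a⌋ ≤ ⌊(P q n : ℝ) * (a + d)⌋ :=
        Int.floor_le_floor (mul_le_mul_of_nonneg_left (by linarith) (hPpos n).le)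
      have h4 : (((⌊(P q n : ℝ) * (a + d)⌋ + 1 - ⌊(P q n : ℝ) * a⌋).toNat : ℕ) : ℝ) =
          ⌊(P q n : ℝ) * (a + d)⌋ + 1 - ⌊(P q n : ℝ) * a⌋ := by
        have h5 := congrArg (fun t : ℤ => (t : ℝ)) (Int.toNat_of_nonneg
          (show 0 ≤ ⌊(P q n : ℝ) * (a + d)⌋ + 1 - ⌊(P q n : ℝ) * a⌋ by linarith))
        push_cast at h5
        exact_mod_cast h5
      rw [h4]
      nlinarith
    calc μ q (ψ ⁻¹' (Set.Icc a (a + d)) ∩ A) ≤
        ∑ v ∈ F, μ q {ω | ω ∈ A ∧ ⌊(P q n : ℝ) * ψ ω⌋ = v} :=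
          (measure_mono hsub).trans (measure_biUnion_finset_le _ _)
      _ ≤ ∑ v ∈ F, (2 ^ n / P q n : ℝ≥0∞) := Finset.sum_le_sum fun v _ => hcyl v
      _ = ENNReal.ofReal (F.card * (2 ^ n / P q n)) := by
          rw [Finset.sum_const, nsmul_eq_mul, ENNReal.ofReal_mul (by positivity),
            ENNReal.ofReal_div_of_pos (hPpos n), ENNReal.ofReal_pow (by norm_num)]
          simp
      _ ≤ _ := by
          apply ENNReal.ofReal_le_ofReal
          apply mul_le_mul_of_nonneg_right hcard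
          have := hPpos n
          positivity
  -- Hölder bound
  have hD : ∀ s : ℝ, 0 < s → s < 1 → ∃ r0 : ℝ, 0 < r0 ∧ ∀ a d : ℝ, 0 < d → d < r0 →
      μ q (ψ ⁻¹' (Set.Icc a (a + d)) ∩ A) ≤ ENNReal.ofReal (d ^ s) := by
    intro s hs0 hs1
    have h0 := (tendsto_ratio_zero hq2 hq (show 0 < 1 - s by linarith)).const_mul (6 : ℝ)
    rw [mul_zero] at h0
    obtain ⟨n0, hn0⟩ := eventually_atTop.mp (h0.eventually_le_const (show (0 : ℝ) < 1 by norm_num))
    refine ⟨1 / P q n0, by have := hPpos n0; positivity, ?_⟩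
    intro a d hd hdr
    have hex : ∃ m, 1 / (P q m : ℝ) ≤ d := by
      obtain ⟨m, hm⟩ := exists_nat_gt (1 / d)
      refine ⟨m, ?_⟩
      rw [div_le_iff₀ (hPpos m)]
      rw [div_lt_iff₀ hd] at hm
      have h1 : (m : ℝ) ≤ P q m := by
        have h2 : (m : ℝ) ≤ (2 : ℝ) ^ m := by exact_mod_cast Nat.lt_two_pow_self.le
        exact h2.trans (by exact_mod_cast two_pow_le_P hq2 m)
      nlinarith
    classical
    set m := Nat.find hex with hm
    have hm1 : 1 / (P q m : ℝ) ≤ d := Nat.find_spec hex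
    have hmn : n0 < m := by
      by_contra hcon
      push Not at hcon
      have h1 : 1 / (P q n0 : ℝ) ≤ 1 / P q m :=
        one_div_le_one_div_of_le (hPpos m) (by exact_mod_cast P_mono hq2 hcon)
      linarith
    obtain ⟨n, hn⟩ : ∃ n, m = n + 1 := ⟨m - 1, by omega⟩
    have hm2 : d < 1 / (P q n : ℝ) := by
      have := Nat.find_min hex (show n < Nat.find hex by omega)
      push Not at this
      exact this
    refine (hI m a d hd.le).trans (ENNReal.ofReal_le_ofReal ?_)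
    have hP := hPpos m
    have hPn := hPpos n
    have h1 : (d * P q m + 2) * (2 ^ m / P q m) ≤ 3 * 2 ^ m * d := by
      rw [div_le_iff₀ hP] at hm1
      have h2 : (d * P q m + 2) ≤ 3 * (d * P q m) := by linarith
      calc (d * P q m + 2) * (2 ^ m / P q m) ≤ 3 * (d * P q m) * (2 ^ m / P q m) := by gcongr
        _ = 3 * 2 ^ m * d := by field_simp
    refine h1.trans ?_
    have h3 := hn0 n (by omega)
    have h4 := Real.rpow_pos_of_pos hPn (1 - s)
    have h5 : 6 * (2 : ℝ) ^ n ≤ (P q n : ℝ) ^ (1 - s) := by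
      rw [← mul_div_assoc, div_le_one h4] at h3
      exact h3
    have h6 : (P q n : ℝ) ^ (1 - s) ≤ (1 / d) ^ (1 - s) := by
      apply Real.rpow_le_rpow hPn.le _ (by linarith)
      rw [le_div_iff₀ hd]
      rw [lt_div_iff₀ hPn] at hm2
      linarith
    have h7 : (1 / d) ^ (1 - s) * d = d ^ s := by
      rw [one_div, Real.inv_rpow hd.le, ← Real.rpow_neg hd.le]
      nth_rewrite 2 [← Real.rpow_one d]
      rw [← Real.rpow_add hd]
      congr 1
      ring
    calc 3 * 2 ^ m * d = (6 * 2 ^ n) * d := by rw [hn, pow_succ]; ring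
      _ ≤ (1 / d) ^ (1 - s) * d := by gcongr; exact h5.trans h6
      _ = d ^ s := h7
  -- the mass distribution principle for the outer measure
  have key : ∀ s : ℝ≥0, 0 < s → s < 1 → (s : ℝ≥0∞) ≤ dimH (ψ '' A) := by
    intro s hs0 hs1
    apply le_dimH_of_hausdorffMeasure_ne_zero
    obtain ⟨r0, hr0, hr⟩ := hD s (by exact_mod_cast hs0) (by exact_mod_cast hs1)
    set ν : OuterMeasure ℝ := OuterMeasure.map ψ (OuterMeasure.restrict A (μ q).toOuterMeasure) with hν
    have hνa : ∀ U, ν U = μ q (ψ ⁻¹' U ∩ A) := by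
      intro U
      rw [hν, OuterMeasure.map_apply, OuterMeasure.restrict_apply]
      rfl
    have hle : ν ≤ OuterMeasure.mkMetric (fun r => r ^ (s : ℝ)) := by
      refine OuterMeasure.le_mkMetric _ _ (ENNReal.ofReal (r0 / 2)) (by simpa using hr0) ?_
      intro U hU
      rcases Set.eq_empty_or_nonempty U with h | hne
      · rw [h, measure_empty]
        exact zero_le
      have hfin : Metric.ediam U ≠ ⊤ := ne_top_of_le_ne_top ENNReal.ofReal_ne_top hU
      set d0 : ℝ := (Metric.ediam U).toReal with hd0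
      have hd0r : d0 < r0 := by
        have h1 : d0 ≤ r0 / 2 := by
          rw [hd0]
          exact ENNReal.toReal_le_of_le_ofReal (by positivity) hU
        linarith
      have hdist : ∀ x ∈ U, ∀ y ∈ U, x - y ≤ d0 := by
        intro x hx y hy
        have h1 := Metric.edist_le_ediam_of_mem hx hy
        rw [edist_dist, Real.dist_eq] at h1
        have h2 : |x - y| ≤ d0 := by
          rw [hd0]
          exact (ENNReal.ofReal_le_iff_le_toReal hfin).mp h1
        exact (le_abs_self _).trans h2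
      have hbdd : BddBelow U := by
        obtain ⟨x, hx⟩ := hne
        exact ⟨x - d0, fun y hy => by linarith [hdist x hx y hy]⟩
      have hsub : ∀ d, d0 ≤ d → U ⊆ Set.Icc (sInf U) (sInf U + d) := by
        intro d hd x hx
        refine ⟨csInf_le hbdd hx, ?_⟩
        have : x - d ≤ sInf U := le_csInf hne fun y hy => by linarith [hdist x hx y hy]
        linarith
      have hU2 : Metric.ediam U = ENNReal.ofReal d0 := (ENNReal.ofReal_toReal hfin).symm
      have hd0nn : 0 ≤ d0 := ENNReal.toReal_nonneg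
      have hs0' : (0 : ℝ) < s := by exact_mod_cast hs0
      have hlim : Tendsto (fun d : ℝ => ENNReal.ofReal (d ^ (s : ℝ))) (𝓝[>] d0)
          (𝓝 (ENNReal.ofReal (d0 ^ (s : ℝ)))) := by
        apply ENNReal.tendsto_ofReal
        exact ((Real.continuous_rpow_const hs0'.le).tendsto d0).mono_left nhdsWithin_le_nhds
      have hbound : ν U ≤ ENNReal.ofReal (d0 ^ (s : ℝ)) := by
        refine ge_of_tendsto hlim ?_
        filter_upwards [Ioo_mem_nhdsGT hd0r] with d hd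
        rw [hνa]
        refine le_trans (measure_mono ?_) (hr (sInf U) d (by linarith [hd.1]) hd.2)
        exact Set.inter_subset_inter_left _ (Set.preimage_mono (hsub d hd.1.le))
      show ν U ≤ (Metric.ediam U) ^ (s : ℝ)
      rw [hU2, ENNReal.ofReal_rpow_of_nonneg hd0nn hs0'.le]
      exact hbound
    have h1 : ν (ψ '' A) ≤ μH[(s : ℝ)] (ψ '' A) := by
      unfold Measure.hausdorffMeasure
      rw [← OuterMeasure.coe_mkMetric]
      exact hle _
    have h2 : 0 < ν (ψ '' A) := by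
      rw [hνa]
      refine lt_of_lt_of_le (pos_iff_ne_zero.mpr hA) (measure_mono ?_)
      intro ω hω
      exact ⟨⟨ω, hω, rfl⟩, hω⟩
    exact (lt_of_lt_of_le h2 h1).ne'
  apply le_of_forall_lt
  intro c hc
  obtain ⟨s, hs1, hs2⟩ := ENNReal.lt_iff_exists_nnreal_btwn.mp hc
  have hs0 : 0 < s := by exact_mod_cast (show (0 : ℝ≥0∞) ≤ c from zero_le).trans_lt hs1
  exact hs1.trans_le (key s hs0 (by exact_mod_cast hs2))

end Pool.Agent.X191.BA
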