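import Mathlib

set_option autoImplicit false

open Finset Filter Topology MeasureTheory
open scoped ENNReal NNReal

namespace Pool.Agent.X191.BA

theorem lln_of_second_moment {Ω : Type*} [MeasurableSpace Ω] (m : Measure Ω) [IsProbabilityMeasure m]
    (N : ℕ → Ω → ℝ) (hmeas : ∀ n, Measurable (N n)) (hmono : ∀ ω, Monotone fun n => N n ω)
    (h0 : ∀ n ω, 0 ≤ N n ω) (W : ℕ → ℝ) (hW0 : W 0 = 0) (hWm : Monotone W)
    (hW1 : ∀ n, W (n + 1) ≤ W n + 1) (hW : Tendsto W atTop atTop) (C : ℝ) (hC : 0 ≤ C)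
    (hvar : ∀ n, ∫⁻ ω, ENNReal.ofReal ((N n ω - W n) ^ 2) ∂m ≤ ENNReal.ofReal (C * W n)) :
    ∀ᵐ ω ∂m, Tendsto (fun n => N n ω / W n) atTop (𝓝 1) := by
  classical
  have hex : ∀ j : ℕ, ∃ n, (j : ℝ) ^ 2 ≤ W n := fun j => (hW.eventually_ge_atTop _).exists
  set f : ℕ → ℕ := fun j => Nat.find (hex j) with hf
  have hf1 : ∀ j : ℕ, (j : ℝ) ^ 2 ≤ W (f j) := fun j => Nat.find_spec (hex j)
  have hf2 : ∀ j : ℕ, W (f j) ≤ (j : ℝ) ^ 2 + 1 := by
    intro j
    rcases Nat.eq_zero_or_pos (f j) with h | h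
    · rw [h, hW0]; positivity
    · have h1 := Nat.find_min (hex j) (show f j - 1 < Nat.find (hex j) by
        have : f j = Nat.find (hex j) := rfl
        omega)
      push Not at h1
      have h2 := hW1 (f j - 1)
      rw [Nat.sub_add_cancel h] at h2
      linarith
  set X : ℕ → Ω → ℝ := fun j ω => (N (f j) ω - W (f j)) / (j : ℝ) ^ 2 with hX
  have hXint : ∀ j, ∫⁻ ω, ENNReal.ofReal (X j ω ^ 2) ∂m ≤ ENNReal.ofReal (2 * C * (1 / (j : ℝ) ^ 2)) := by
    intro j
    rcases Nat.eq_zero_or_pos j with h | h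
    · subst h
      simp [hX]
    · have hj : (1 : ℝ) ≤ j := by exact_mod_cast h
      calc ∫⁻ ω, ENNReal.ofReal (X j ω ^ 2) ∂m =
          ∫⁻ ω, ENNReal.ofReal (1 / (j : ℝ) ^ 4) * ENNReal.ofReal ((N (f j) ω - W (f j)) ^ 2) ∂m := by
            apply lintegral_congr
            intro ω
            rw [← ENNReal.ofReal_mul (by positivity)]
            congr 1
            simp only [hX]
            field_simp
        _ = ENNReal.ofReal (1 / (j : ℝ) ^ 4) * ∫⁻ ω, ENNReal.ofReal ((N (f j) ω - W (f j)) ^ 2) ∂m := by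
            rw [lintegral_const_mul]
            exact ENNReal.measurable_ofReal.comp (((hmeas _).sub_const _).pow_const 2)
        _ ≤ ENNReal.ofReal (1 / (j : ℝ) ^ 4) * ENNReal.ofReal (C * W (f j)) := by gcongr; exact hvar _
        _ = ENNReal.ofReal (1 / (j : ℝ) ^ 4 * (C * W (f j))) := (ENNReal.ofReal_mul (by positivity)).symm
        _ ≤ _ := by
            apply ENNReal.ofReal_le_ofReal
            have h2 := hf2 j
            have h3 : W (f j) ≤ 2 * (j : ℝ) ^ 2 := by nlinarith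
            calc 1 / (j : ℝ) ^ 4 * (C * W (f j)) ≤ 1 / (j : ℝ) ^ 4 * (C * (2 * (j : ℝ) ^ 2)) := by gcongr
              _ = _ := by field_simp
  have hsum : Summable fun j : ℕ => 2 * C * (1 / (j : ℝ) ^ 2) :=
    (Real.summable_one_div_nat_pow.mpr (by norm_num)).mul_left _
  have hfin : ∫⁻ ω, ∑' j, ENNReal.ofReal (X j ω ^ 2) ∂m ≠ ⊤ := by
    rw [lintegral_tsum]
    · refine ne_top_of_le_ne_top ?_ (ENNReal.tsum_le_tsum hXint)
      rw [← ENNReal.ofReal_tsum_of_nonneg (fun j => by positivity) hsum]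
      exact ENNReal.ofReal_ne_top
    · intro j
      exact (ENNReal.measurable_ofReal.comp
        ((((hmeas _).sub_const _).div_const _).pow_const 2)).aemeasurable
  have hae : ∀ᵐ ω ∂m, ∑' j, ENNReal.ofReal (X j ω ^ 2) < ⊤ := by
    refine ae_lt_top ?_ hfin
    refine Measurable.tsum fun j => ?_
    exact ENNReal.measurable_ofReal.comp ((((hmeas _).sub_const _).div_const _).pow_const 2)
  filter_upwards [hae] with ω hω
  have hX0 : Tendsto (fun j => X j ω) atTop (𝓝 0) := by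
    have h1 := ENNReal.tendsto_atTop_zero_of_tsum_ne_top hω.ne
    have h2 : Tendsto (fun j => X j ω ^ 2) atTop (𝓝 0) := by
      have h3 := (ENNReal.tendsto_toReal ENNReal.zero_ne_top).comp h1
      simp only [ENNReal.toReal_zero] at h3
      refine h3.congr fun j => ?_
      simp only [Function.comp_apply]
      exact ENNReal.toReal_ofReal (sq_nonneg _)
    have h4 : Tendsto (fun j => Real.sqrt (X j ω ^ 2)) atTop (𝓝 0) := by
      have := (Real.continuous_sqrt.tendsto 0).comp h2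
      simpa [Function.comp_def] using this
    simp only [Real.sqrt_sq_eq_abs] at h4
    exact (tendsto_zero_iff_abs_tendsto_zero _).mpr h4
  have hinv : Tendsto (fun j : ℕ => 1 / (j : ℝ)) atTop (𝓝 0) := tendsto_one_div_atTop_nhds_zero_nat
  have hWf : Tendsto (fun j => W (f j) / (j : ℝ) ^ 2) atTop (𝓝 1) := by
    have h1 : Tendsto (fun j : ℕ => 1 + (1 / (j : ℝ)) ^ 2) atTop (𝓝 1) := by
      have := (hinv.pow 2).const_add 1
      simpa using this
    refine tendsto_of_tendsto_of_tendsto_of_le_of_le' tendsto_const_nhds h1 ?_ ?_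
    · filter_upwards [eventually_ge_atTop 1] with j hj
      have hj' : (0 : ℝ) < j := by exact_mod_cast hj
      rw [le_div_iff₀ (by positivity), one_mul]
      exact hf1 j
    · filter_upwards [eventually_ge_atTop 1] with j hj
      have hj' : (0 : ℝ) < j := by exact_mod_cast hj
      rw [div_le_iff₀ (by positivity)]
      have : (1 + (1 / (j : ℝ)) ^ 2) * (j : ℝ) ^ 2 = (j : ℝ) ^ 2 + 1 := by field_simp
      rw [this]
      exact hf2 j
  have hNf : Tendsto (fun j => N (f j) ω / (j : ℝ) ^ 2) atTop (𝓝 1) := by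
    have h1 := hX0.add hWf
    rw [zero_add] at h1
    refine h1.congr fun j => ?_
    simp only [hX]
    ring
  set J : ℕ → ℕ := fun n => ⌊Real.sqrt (W n)⌋₊ with hJ
  have hJt : Tendsto J atTop atTop :=
    tendsto_nat_floor_atTop.comp (Real.tendsto_sqrt_atTop.comp hW)
  have hWnn : ∀ n, 0 ≤ W n := fun n => by rw [← hW0]; exact hWm (Nat.zero_le n)
  have hJ1 : ∀ n, (J n : ℝ) ^ 2 ≤ W n := by
    intro n
    have h1 : (J n : ℝ) ≤ Real.sqrt (W n) := Nat.floor_le (Real.sqrt_nonneg _)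
    calc (J n : ℝ) ^ 2 ≤ Real.sqrt (W n) ^ 2 := by gcongr
      _ = W n := Real.sq_sqrt (hWnn n)
  have hJ2 : ∀ n, W n < ((J n + 1 : ℕ) : ℝ) ^ 2 := by
    intro n
    have h1 : Real.sqrt (W n) < (J n : ℝ) + 1 := Nat.lt_floor_add_one _
    calc W n = Real.sqrt (W n) ^ 2 := (Real.sq_sqrt (hWnn n)).symm
      _ < ((J n + 1 : ℕ) : ℝ) ^ 2 := by
        push_cast
        have := Real.sqrt_nonneg (W n)
        gcongr
  have hlow : ∀ n, f (J n) ≤ n := fun n => Nat.find_min' (hex _) (hJ1 n)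
  have hup : ∀ n, n ≤ f (J n + 1) := by
    intro n
    by_contra hcon
    push Not at hcon
    have h1 := hWm hcon.le
    have h2 := hf1 (J n + 1)
    linarith [hJ2 n]
  have hc1 : Tendsto (fun j : ℕ => ((j : ℝ) / (j + 1)) ^ 2) atTop (𝓝 1) := by
    have := (tendsto_natCast_div_add_atTop (1 : ℝ)).pow 2
    simpa using this
  have hc2 : Tendsto (fun j : ℕ => (((j : ℝ) + 1) / j) ^ 2) atTop (𝓝 1) := by
    have := hc1.inv₀ one_ne_zero
    rw [inv_one] at this
    refine this.congr fun j => ?_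
    rw [← inv_pow, inv_div]
  have hlo : Tendsto (fun n => N (f (J n)) ω / (J n : ℝ) ^ 2 * ((J n : ℝ) / (J n + 1)) ^ 2) atTop (𝓝 1) := by
    have := (hNf.mul hc1).comp hJt
    simpa [Function.comp_def] using this
  have hhi : Tendsto (fun n => N (f (J n + 1)) ω / ((J n + 1 : ℕ) : ℝ) ^ 2 *
      (((J n : ℝ) + 1) / J n) ^ 2) atTop (𝓝 1) := by
    have := ((hNf.comp (tendsto_add_atTop_nat 1)).mul hc2).comp hJt
    simpa [Function.comp_def] using this
  refine tendsto_of_tendsto_of_tendsto_of_le_of_le' hlo hhi ?_ ?_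
  · filter_upwards [hJt.eventually_ge_atTop 1] with n hn
    have hn' : (1 : ℝ) ≤ J n := by exact_mod_cast hn
    have hWp : 0 < W n := by nlinarith [hJ1 n]
    have e1 : N (f (J n)) ω / (J n : ℝ) ^ 2 * ((J n : ℝ) / (J n + 1)) ^ 2 =
        N (f (J n)) ω / ((J n + 1 : ℕ) : ℝ) ^ 2 := by
      push_cast
      field_simp
    rw [e1]
    exact div_le_div₀ (h0 _ _) (hmono ω (hlow n)) hWp (hJ2 n).le
  · filter_upwards [hJt.eventually_ge_atTop 1] with n hn
    have hn' : (1 : ℝ) ≤ J n := by exact_mod_cast hn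
    have e1 : N (f (J n + 1)) ω / ((J n + 1 : ℕ) : ℝ) ^ 2 * (((J n : ℝ) + 1) / J n) ^ 2 =
        N (f (J n + 1)) ω / (J n : ℝ) ^ 2 := by
      push_cast
      field_simp
    rw [e1]
    exact div_le_div₀ (h0 _ _) (hmono ω (hup n)) (by positivity) (hJ1 n)

end Pool.Agent.X191.BA
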