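import Pool.Agent.X191.BA.Seq

set_option autoImplicit false

open Finset Filter Topology MeasureTheory
open scoped ENNReal NNReal

namespace Pool.Agent.X191.BA

open Pool.Agent.X191.NS (P digit P_zero P_succ P_pos two_pow_le_P P_mono floor_step digit_lt)

/-- uniform measure on `{0, …, N - 1}` -/
noncomputable def unif (N : ℕ) : Measure ℕ :=
  if N = 0 then Measure.dirac 0 else (N : ℝ≥0∞)⁻¹ • ∑ d ∈ range N, Measure.dirac d

theorem unif_apply {N : ℕ} (hN : N ≠ 0) (A : Set ℕ) [DecidablePred (· ∈ A)] :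
    unif N A = (N : ℝ≥0∞)⁻¹ * ((range N).filter (· ∈ A)).card := by
  unfold unif
  rw [if_neg hN, Measure.smul_apply, Measure.finsetSum_apply, smul_eq_mul]
  congr 1
  rw [Finset.card_filter]
  push_cast
  apply Finset.sum_congr rfl
  intro d _
  rw [Measure.dirac_apply' _ (MeasurableSet.of_discrete)]
  simp [Set.indicator_apply]

instance (N : ℕ) : IsProbabilityMeasure (unif N) := by
  constructor
  classical
  by_cases hN : N = 0
  · subst hN
    simp [unif]
  · rw [unif_apply hN]
    simp only [Set.mem_univ, Finset.filter_true, card_range]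
    exact ENNReal.inv_mul_cancel (by exact_mod_cast hN) (by simp)

theorem unif_singleton {N d : ℕ} (hd : d < N) : unif N {d} = (N : ℝ≥0∞)⁻¹ := by
  classical
  rw [unif_apply (by omega)]
  have : (range N).filter (· ∈ ({d} : Set ℕ)) = {d} := by
    ext x
    simp only [mem_filter, mem_range, Set.mem_singleton_iff, mem_singleton]
    constructor
    · rintro ⟨_, h⟩; exact h
    · rintro rfl; exact ⟨hd, rfl⟩
  rw [this]
  simp

theorem unif_pair_le {N : ℕ} (hN : N ≠ 0) (d d' : ℕ) : unif N {d, d'} ≤ 2 / N := by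
  classical
  rw [unif_apply hN, ENNReal.div_eq_inv_mul]
  gcongr
  have : (range N).filter (· ∈ ({d, d'} : Set ℕ)) ⊆ {d, d'} := by
    intro x hx
    simpa using (mem_filter.mp hx).2
  exact_mod_cast (card_le_card this).trans card_le_two

theorem unif_lt_le {N : ℕ} (hN : N ≠ 0) (T : ℕ) : unif N {d | d < T} ≤ T / N := by
  classical
  rw [unif_apply hN, ENNReal.div_eq_inv_mul]
  gcongr
  have : (range N).filter (· ∈ {d | d < T}) ⊆ range T := by
    intro x hx
    simpa using (mem_filter.mp hx).2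
  have h := card_le_card this
  rw [card_range] at h
  exact_mod_cast h

theorem unif_ge {N : ℕ} (hN : N ≠ 0) : unif N {d | N ≤ d} = 0 := by
  classical
  rw [unif_apply hN]
  have : (range N).filter (· ∈ {d | N ≤ d}) = ∅ := by
    ext x
    simp
  rw [this]
  simp

/-- the law of the digits of a random number -/
noncomputable def μ (q : ℕ → ℕ) : Measure (ℕ → ℕ) := Measure.infinitePi fun n => unif (q n)

instance (q : ℕ → ℕ) : IsProbabilityMeasure (μ q) := by
  unfold μ
  infer_instance

theorem μ_pi (q : ℕ → ℕ) (s : Finset ℕ) (t : ℕ → Set ℕ) :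
    μ q (Set.pi s t) = ∏ i ∈ s, unif (q i) (t i) :=
  Measure.infinitePi_pi (fun n => unif (q n)) (fun _ _ => MeasurableSet.of_discrete)

theorem μ_eval (q : ℕ → ℕ) (n : ℕ) (A : Set ℕ) : μ q {ω | ω n ∈ A} = unif (q n) A := by
  have h := μ_pi q {n} (fun _ => A)
  simp only [prod_singleton] at h
  rw [← h]
  congr 1
  ext ω
  simp

theorem ae_lt {q : ℕ → ℕ} (hq : ∀ n, 2 ≤ q n) : ∀ᵐ ω ∂μ q, ∀ n, ω n < q n := by
  rw [ae_all_iff]
  intro n
  have h := μ_eval q n {d | q n ≤ d}
  rw [unif_ge (by have := hq n; omega)] at h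
  rw [ae_iff]
  simpa using h

end Pool.Agent.X191.BA
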