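import Pool.Agent.X191.BA.Dep
import Pool.Agent.X191.BA.Meas

set_option autoImplicit false

open Finset Filter Topology MeasureTheory
open scoped ENNReal NNReal

namespace Pool.Agent.X191.BA

variable {q : ℕ → ℕ}

/-- the block `B` occurs at the position `p` of the sequence `e` -/
def Occ (e : ℕ → ℕ) {k : ℕ} (B : Fin k → ℕ) (p : ℕ) : Prop := ∀ i : Fin k, e (p + i) = B i

open Classical in
/-- number of occurrences at positions `≤ n` -/
noncomputable def num (e : ℕ → ℕ) {k : ℕ} (B : Fin k → ℕ) (n : ℕ) : ℕ :=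
  ((Icc 1 n).filter fun p => Occ e B p).card

/-- the expected number -/
noncomputable def wt (q : ℕ → ℕ) (k n : ℕ) : ℝ :=
  ∑ p ∈ Icc 1 n, 1 / ∏ i ∈ range k, (q (p + i) : ℝ)

theorem sum_compare (a b : ℕ → ℝ) (p0 : ℕ) (hab : ∀ p, p0 ≤ p → a p = b p)
    (hb : Tendsto (fun n => ∑ p ∈ Icc 1 n, b p) atTop atTop) :
    Tendsto (fun n => ∑ p ∈ Icc 1 n, a p) atTop atTop ∧
      Tendsto (fun n => (∑ p ∈ Icc 1 n, a p) / ∑ p ∈ Icc 1 n, b p) atTop (𝓝 1) := by
  set c : ℝ := ∑ p ∈ Icc 1 p0, a p - ∑ p ∈ Icc 1 p0, b p with hc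
  have h1 : ∀ n, p0 ≤ n → ∑ p ∈ Icc 1 n, a p = ∑ p ∈ Icc 1 n, b p + c := by
    intro n hn
    induction n, hn using Nat.le_induction with
    | base => rw [hc]; ring
    | succ n hn ih =>
      rw [Finset.sum_Icc_succ_top (by omega), Finset.sum_Icc_succ_top (by omega), ih,
        hab (n + 1) (by omega)]
      ring
  constructor
  · refine (tendsto_atTop_add_const_right _ c hb).congr' ?_
    filter_upwards [eventually_ge_atTop p0] with n hn
    exact (h1 n hn).symm
  · have h2 : Tendsto (fun n => 1 + c / ∑ p ∈ Icc 1 n, b p) atTop (𝓝 1) := by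
      have := (tendsto_const_nhds (x := c)).div_atTop hb
      simpa using this.const_add 1
    refine h2.congr' ?_
    filter_upwards [eventually_ge_atTop p0, hb.eventually_gt_atTop 0] with n hn hpos
    rw [h1 n hn, add_div, div_self hpos.ne']

/-- the block event -/
def blk {k : ℕ} (B : Fin k → ℕ) (p : ℕ) : Set (ℕ → ℕ) := {ω | Occ ω B p}

/-- extension of a block -/
def ext0 {k : ℕ} (B : Fin k → ℕ) (i : ℕ) : ℕ := if h : i < k then B ⟨i, h⟩ else 0

theorem blk_eq {k : ℕ} (B : Fin k → ℕ) (p : ℕ) :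
    blk B p = Set.pi (Ico p (p + k) : Finset ℕ) (fun n => {ext0 B (n - p)}) := by
  ext ω
  simp only [blk, Occ, Set.mem_ofPred_eq, Set.mem_pi, Finset.mem_coe, mem_Ico, Set.mem_singleton_iff]
  constructor
  · intro h n hn
    have h1 := h ⟨n - p, by omega⟩
    simp only at h1
    rw [Nat.add_sub_cancel' hn.1] at h1
    rw [h1, ext0, dif_pos (by omega)]
  · intro h i
    have h1 := h (p + i) ⟨by omega, by omega⟩
    rw [h1, Nat.add_sub_cancel_left, ext0, dif_pos i.2]

theorem measurable_blk {k : ℕ} (B : Fin k → ℕ) (p : ℕ) : MeasurableSet (blk B p) := by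
  rw [blk_eq]
  exact MeasurableSet.pi (Finset.countable_toSet _) fun _ _ => MeasurableSet.of_discrete

theorem μ_real_pi (s : Finset ℕ) (t : ℕ → Set ℕ) :
    (μ q).real (Set.pi s t) = ∏ i ∈ s, (unif (q i)).real (t i) := by
  rw [Measure.real, μ_pi, ENNReal.toReal_prod]
  rfl

theorem μ_blk {k : ℕ} (B : Fin k → ℕ) (p : ℕ) :
    (μ q).real (blk B p) = ∏ n ∈ Ico p (p + k), (unif (q n)).real {ext0 B (n - p)} := by
  rw [blk_eq, μ_real_pi]

theorem μ_blk_val {k : ℕ} (B : Fin k → ℕ) (p : ℕ) (h : ∀ i : Fin k, B i < q (p + i)) :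
    (μ q).real (blk B p) = 1 / ∏ i ∈ range k, (q (p + i) : ℝ) := by
  rw [μ_blk, Finset.prod_Ico_eq_prod_range, Nat.add_sub_cancel_left, one_div, ← Finset.prod_inv_distrib]
  apply Finset.prod_congr rfl
  intro i hi
  rw [mem_range] at hi
  rw [Nat.add_sub_cancel_left, ext0, dif_pos hi, Measure.real, unif_singleton (h ⟨i, hi⟩)]
  simp

theorem μ_blk_inter {k : ℕ} (B : Fin k → ℕ) (i j : ℕ) (hij : i + k ≤ j) :
    (μ q).real (blk B i ∩ blk B j) = (μ q).real (blk B i) * (μ q).real (blk B j) := by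
  classical
  have h1 : blk B i ∩ blk B j = Set.pi (Ico i (i + k) ∪ Ico j (j + k) : Finset ℕ)
      (fun n => if n < i + k then {ext0 B (n - i)} else {ext0 B (n - j)}) := by
    rw [blk_eq, blk_eq]
    ext ω
    simp only [Set.mem_inter_iff, Set.mem_pi, Finset.mem_coe, mem_union, mem_Ico]
    constructor
    · rintro ⟨h2, h3⟩ n hn
      rcases hn with hn | hn
      · rw [if_pos hn.2]; exact h2 n hn
      · rw [if_neg (by omega)]; exact h3 n hn
    · intro h
      refine ⟨fun n hn => ?_, fun n hn => ?_⟩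
      · have := h n (Or.inl hn)
        rwa [if_pos hn.2] at this
      · have := h n (Or.inr hn)
        rwa [if_neg (by omega)] at this
  rw [h1, μ_real_pi, Finset.prod_union, μ_blk, μ_blk]
  · congr 1
    · apply Finset.prod_congr rfl
      intro n hn
      rw [mem_Ico] at hn
      rw [if_pos hn.2]
    · apply Finset.prod_congr rfl
      intro n hn
      rw [mem_Ico] at hn
      rw [if_neg (by omega)]
  · rw [Finset.disjoint_left]
    intro n h2 h3
    rw [mem_Ico] at h2 h3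
    omega

theorem eventually_block (T : ℕ → ℕ) (hT : Tendsto T atTop atTop)
    {k : ℕ} (B : Fin k → ℕ) : ∃ p0, ∀ p, p0 ≤ p → ∀ i : Fin k, B i < T (p + i) := by
  have h1 : ∀ i : Fin k, ∃ p0, ∀ p, p0 ≤ p → B i < T p := fun i =>
    eventually_atTop.mp (hT.eventually_gt_atTop (B i))
  choose f hf using h1
  refine ⟨∑ i, f i, fun p hp i => hf i _ ?_⟩
  have := Finset.single_le_sum (f := f) (fun _ _ => Nat.zero_le _) (mem_univ i)
  omega

theorem ae_normal (hq : Tendsto q atTop atTop) {k : ℕ}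
    (hk : Tendsto (wt q k) atTop atTop) (B : Fin k → ℕ) :
    ∀ᵐ ω ∂μ q, Tendsto (fun n => (num ω B n : ℝ) / wt q k n) atTop (𝓝 1) := by
  obtain ⟨p0, hp0⟩ := eventually_block q hq B
  obtain ⟨h1, h2⟩ := sum_compare (fun p => (μ q).real (blk B p))
    (fun p => 1 / ∏ i ∈ range k, (q (p + i) : ℝ)) p0 (fun p hp => μ_blk_val B p (hp0 p hp)) hk
  filter_upwards [lln_dep (μ q) (blk B) (measurable_blk B) k (μ_blk_inter B) h1] with ω hω
  have h3 := hω.mul h2
  rw [one_mul] at h3
  refine h3.congr' ?_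
  filter_upwards [h1.eventually_gt_atTop 0] with n hn
  have h4 : cnt (blk B) ω n = num ω B n := rfl
  rw [h4]
  have h5 : (∑ p ∈ Icc 1 n, (μ q).real (blk B p)) ≠ 0 := hn.ne'
  rw [div_mul_div_comm, mul_comm (num ω B n : ℝ), mul_div_mul_left _ _ h5]
  rfl

end Pool.Agent.X191.BA
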