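import Pool.Agent.X191.BA.Norm
import Pool.Agent.X191.BA.Dim

set_option autoImplicit false

open Finset Filter Topology MeasureTheory
open scoped ENNReal NNReal

namespace Pool.Agent.X191.BA

open Pool.Agent.X191.NS (P digit P_zero P_succ P_pos two_pow_le_P P_mono floor_step digit_lt)

variable {q : ℕ → ℕ}

theorem num_eq (e : ℕ → ℕ) {k : ℕ} (B : Fin k → ℕ) (n : ℕ) [∀ p, Decidable (Occ e B p)] :
    (num e B n : ℝ) = ∑ p ∈ Icc 1 n, if Occ e B p then (1 : ℝ) else 0 := by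
  unfold num
  rw [Finset.card_filter]
  push_cast
  apply Finset.sum_congr rfl
  intro p _
  congr

theorem num_compare (e f : ℕ → ℕ) {k : ℕ} (B : Fin k → ℕ) (p0 : ℕ)
    (h : ∀ p, p0 ≤ p → (Occ e B p ↔ Occ f B p)) : ∃ c : ℝ, ∀ n, p0 ≤ n →
      (num e B n : ℝ) = num f B n + c := by
  classical
  refine ⟨(num e B p0 : ℝ) - num f B p0, ?_⟩
  intro n hn
  induction n, hn using Nat.le_induction with
  | base => ring
  | succ n hn ih =>
    rw [num_eq, num_eq, Finset.sum_Icc_succ_top (by omega), Finset.sum_Icc_succ_top (by omega),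
      ← num_eq, ← num_eq, ih]
    have h1 := h (n + 1) (by omega)
    by_cases h2 : Occ f B (n + 1)
    · rw [if_pos h2, if_pos (h1.mpr h2)]; ring
    · rw [if_neg h2, if_neg (fun h3 => h2 (h1.mp h3))]; ring

theorem tendsto_compare (e f : ℕ → ℕ) {k : ℕ} (B : Fin k → ℕ) (p0 : ℕ)
    (h : ∀ p, p0 ≤ p → (Occ e B p ↔ Occ f B p)) (hk : Tendsto (wt q k) atTop atTop)
    (hf : Tendsto (fun n => (num f B n : ℝ) / wt q k n) atTop (𝓝 1)) :
    Tendsto (fun n => (num e B n : ℝ) / wt q k n) atTop (𝓝 1) := by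
  obtain ⟨c, hc⟩ := num_compare e f B p0 h
  have h1 := hf.add ((tendsto_const_nhds (x := c)).div_atTop hk)
  rw [add_zero] at h1
  refine h1.congr' ?_
  filter_upwards [eventually_ge_atTop p0] with n hn
  rw [hc n hn, add_div]

theorem num_digit (hq2 : ∀ n, 2 ≤ q n) {e : ℕ → ℕ} (he : ∀ n, e n < q n)
    (hf : ∃ᶠ n in atTop, e n + 1 < q n) {k : ℕ} (B : Fin k → ℕ) (n : ℕ) :
    num (digit q (val q e)) B n = num e B n := by
  classical
  unfold num
  congr 1
  apply Finset.filter_congr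
  intro p hp
  rw [mem_Icc] at hp
  unfold Occ
  constructor
  · intro h i
    rw [← h i, digit_val hq2 he hf _ (by omega)]
  · intro h i
    rw [digit_val hq2 he hf _ (by omega), h i]

/-- uniform distribution modulo one, for a sequence with values in `[0, 1)` -/
def UD (u : ℕ → ℝ) : Prop := ∀ a b : ℝ, 0 ≤ a → a < b → b ≤ 1 →
  Tendsto (fun N : ℕ => (((range N).filter fun n => a ≤ u n ∧ u n < b).card : ℝ) / N) atTop (𝓝 (b - a))

theorem not_UD (u : ℕ → ℝ) (c : ℝ) (hc0 : 0 ≤ c) (hc1 : c < 1) (h : ∀ᶠ n in atTop, u n < c) : ¬ UD u := by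
  classical
  intro hu
  obtain ⟨n0, hn0⟩ := eventually_atTop.mp h
  have h1 := hu c 1 hc0 hc1 le_rfl
  have h2 : Tendsto (fun N : ℕ => (((range N).filter fun n => c ≤ u n ∧ u n < 1).card : ℝ) / N) atTop (𝓝 0) := by
    refine squeeze_zero (fun N => by positivity) (fun N => ?_) (tendsto_const_div_atTop_nhds_zero_nat (n0 : ℝ))
    apply div_le_div_of_nonneg_right _ (by positivity)
    have : ((range N).filter fun n => c ≤ u n ∧ u n < 1) ⊆ range n0 := by
      intro n hn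
      rw [mem_range]
      by_contra hcon
      push Not at hcon
      exact absurd (hn0 n hcon) (not_lt.mpr (mem_filter.mp hn).2.1)
    have h3 := card_le_card this
    rw [card_range] at h3
    exact_mod_cast h3
  have := tendsto_nhds_unique h1 h2
  linarith

theorem fract_le (hq2 : ∀ n, 2 ≤ q n) {e : ℕ → ℕ} (he : ∀ n, e n < q n)
    (hf : ∃ᶠ n in atTop, e n + 1 < q n) (n : ℕ) :
    Int.fract ((P q n : ℝ) * val q e) ≤ ((e (n + 1) : ℝ) + 1) / q (n + 1) := by
  have h1 : (0 : ℝ) < P q n := by exact_mod_cast P_pos hq2 n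
  have h2 : (0 : ℝ) < q (n + 1) := by have := hq2 (n + 1); exact_mod_cast (by omega : 0 < q (n + 1))
  unfold Int.fract
  rw [floor_val hq2 he hf]
  have h3 := val_le_R hq2 he (n + 1)
  rw [P_succ, V] at h3
  push_cast at h3 ⊢
  rw [le_div_iff₀ (by positivity)] at h3
  rw [le_div_iff₀ h2]
  nlinarith

theorem wt_tendsto_num {k : ℕ} (hk : ∀ k, 1 ≤ k → Tendsto (wt q k) atTop atTop) (h : 1 ≤ k) :
    Tendsto (wt q k) atTop atTop := hk k h

/-- good sequences of digits -/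
def Good (q : ℕ → ℕ) : Set (ℕ → ℕ) := {ω | (∀ n, ω n < q n) ∧ ∀ k, 1 ≤ k → ∀ B : Fin k → ℕ,
  Tendsto (fun n => (num ω B n : ℝ) / wt q k n) atTop (𝓝 1)}

theorem ae_good (hq2 : ∀ n, 2 ≤ q n) (hq : Tendsto q atTop atTop)
    (hk : ∀ k, 1 ≤ k → Tendsto (wt q k) atTop atTop) : ∀ᵐ ω ∂μ q, ω ∈ Good q := by
  have h1 : ∀ᵐ ω ∂μ q, ∀ k, 1 ≤ k → ∀ B : Fin k → ℕ,
      Tendsto (fun n => (num ω B n : ℝ) / wt q k n) atTop (𝓝 1) := by
    rw [ae_all_iff]
    intro k
    by_cases h : 1 ≤ k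
    · have : ∀ᵐ ω ∂μ q, ∀ B : Fin k → ℕ, Tendsto (fun n => (num ω B n : ℝ) / wt q k n) atTop (𝓝 1) := by
        rw [ae_all_iff]
        exact fun B => ae_normal hq (hk k h) B
      filter_upwards [this] with ω hω _ using hω
    · exact Eventually.of_forall fun ω h2 => absurd h2 h
  filter_upwards [ae_lt hq2, h1] with ω h2 h3
  exact ⟨h2, h3⟩

/-- the map of Q1 -/
def Φ1 (q ω : ℕ → ℕ) (n : ℕ) : ℕ := if ω n < 3 * (q n / 4) then ω n else ω n - q n / 4

theorem Φ1_lt {ω : ℕ → ℕ} (hω : ∀ n, ω n < q n) (n : ℕ) : Φ1 q ω n < q n := by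
  unfold Φ1
  have := hω n
  split_ifs <;> omega

theorem Φ1_bound {ω : ℕ → ℕ} (hω : ∀ n, ω n < q n) (n : ℕ) (hn : 16 ≤ q n) :
    5 * (Φ1 q ω n + 1) ≤ 4 * q n := by
  unfold Φ1
  have := hω n
  split_ifs <;> omega

theorem Φ1_freq (hq : Tendsto q atTop atTop) {ω : ℕ → ℕ} (hω : ∀ n, ω n < q n) :
    ∃ᶠ n in atTop, Φ1 q ω n + 1 < q n := by
  apply Eventually.frequently
  filter_upwards [hq.eventually_ge_atTop 16] with n hn
  have := Φ1_bound hω n hn
  omega

theorem Φ1_occ {ω : ℕ → ℕ} {k : ℕ} (B : Fin k → ℕ) (p : ℕ) (h : ∀ i : Fin k, B i < q (p + i) / 4) :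
    Occ (Φ1 q ω) B p ↔ Occ ω B p := by
  unfold Occ
  apply forall_congr'
  intro i
  have := h i
  unfold Φ1
  split_ifs with h1
  · rfl
  · constructor
    · intro h2; omega
    · intro h2; omega

theorem q1 (hq2 : ∀ n, 2 ≤ q n) (hq : Tendsto q atTop atTop)
    (hk : ∀ k, 1 ≤ k → Tendsto (wt q k) atTop atTop) :
    dimH ({x : ℝ | ∀ k, 1 ≤ k → ∀ B : Fin k → ℕ,
        Tendsto (fun n => (num (digit q x) B n : ℝ) / wt q k n) atTop (𝓝 1)} \
      {x : ℝ | UD fun n => Int.fract ((P q n : ℝ) * x)}) = 1 := by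
  apply le_antisymm
  · calc _ ≤ dimH (Set.univ : Set ℝ) := dimH_mono (Set.subset_univ _)
      _ = 1 := Real.dimH_univ
  have hpos : μ q (Good q) ≠ 0 := by
    intro h0
    have h1 := ae_good hq2 hq hk
    have h2 : μ q Set.univ = 0 := by
      refine measure_mono_null (t := Good q ∪ (Good q)ᶜ) (by simp) ?_
      rw [measure_union_null_iff]
      exact ⟨h0, h1⟩
    simp at h2
  have hd := dim_one hq2 hq (Φ1 q) (Good q) hpos (fun ω hω n => Φ1_lt hω.1 n)
    (fun ω hω => Φ1_freq hq hω.1) (fun n e => e + q n / 4) (fun ω hω n => by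
      unfold Φ1
      split_ifs with h
      · left; rfl
      · right; have := hω.1 n; omega)
  rw [← hd]
  apply dimH_mono
  rintro _ ⟨ω, hω, rfl⟩
  have h1 : ∀ n, Φ1 q ω n < q n := Φ1_lt hω.1
  have h2 := Φ1_freq hq hω.1
  have hq4 : Tendsto (fun n => q n / 4) atTop atTop :=
    (Nat.tendsto_div_const_atTop (by norm_num)).comp hq
  refine ⟨?_, ?_⟩
  · intro k hk1 B
    obtain ⟨p0, hp0⟩ := eventually_block (fun n => q n / 4) hq4 B
    simp only [num_digit hq2 h1 h2]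
    exact tendsto_compare _ ω B p0 (fun p hp => Φ1_occ B p (hp0 p hp)) (hk k hk1) (hω.2 k hk1 B)
  · apply not_UD _ (9 / 10) (by norm_num) (by norm_num)
    filter_upwards [(hq.comp (tendsto_add_atTop_nat 1)).eventually_ge_atTop 16] with n hn
    refine lt_of_le_of_lt (fract_le hq2 h1 h2 n) ?_
    have hn' : 16 ≤ q (n + 1) := hn
    have h3 : (0 : ℝ) < q (n + 1) := by exact_mod_cast (by omega : 0 < q (n + 1))
    have h4 := Φ1_bound hω.1 (n + 1) hn
    have h5 : 5 * ((Φ1 q ω (n + 1) : ℝ) + 1) ≤ 4 * q (n + 1) := by exact_mod_cast h4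
    rw [div_lt_iff₀ h3]
    linarith

end Pool.Agent.X191.BA
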