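import Pool.Agent.X191.BA.Q1

set_option autoImplicit false

open Finset Filter Topology MeasureTheory
open scoped ENNReal NNReal

namespace Pool.Agent.X191.BA

open Pool.Agent.X191.NS (P digit P_zero P_succ P_pos two_pow_le_P P_mono floor_step digit_lt)

variable {q : ℕ → ℕ}

/-- `n` lies in a window of `l` small digits -/
def Long (q : ℕ → ℕ) (l : ℕ) (ω : ℕ → ℕ) (n : ℕ) : Prop :=
  ∃ a, a ≤ n ∧ n < a + l ∧ ∀ i, a ≤ i → i < a + l → ω i < Nat.sqrt (q i)

open Classical in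
/-- the map of Q2 -/
noncomputable def Φ2 (q : ℕ → ℕ) (l : ℕ) (ω : ℕ → ℕ) (n : ℕ) : ℕ :=
  if ω n = 0 ∧ ¬ Long q l ω n then Nat.sqrt (q n) else ω n

theorem Φ2_lt (hq2 : ∀ n, 2 ≤ q n) (l : ℕ) {ω : ℕ → ℕ} (hω : ∀ n, ω n < q n) (n : ℕ) :
    Φ2 q l ω n < q n := by
  unfold Φ2
  split_ifs
  · exact Nat.sqrt_lt_self (hq2 n)
  · exact hω n

theorem Φ2_g (l : ℕ) (ω : ℕ → ℕ) (n : ℕ) : ω n = Φ2 q l ω n ∨ ω n = 0 := by
  unfold Φ2
  split_ifs with h
  · right; exact h.1
  · left; rfl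

theorem zero_freq {ω : ℕ → ℕ} (hk : Tendsto (wt q 1) atTop atTop)
    (h : ∀ B : Fin 1 → ℕ, Tendsto (fun n => (num ω B n : ℝ) / wt q 1 n) atTop (𝓝 1)) :
    ∃ᶠ n in atTop, ω n = 0 := by
  classical
  intro hcon
  obtain ⟨n0, hn0⟩ := eventually_atTop.mp hcon
  have h1 : Tendsto (fun n => (num ω (fun _ : Fin 1 => 0) n : ℝ) / wt q 1 n) atTop (𝓝 0) := by
    refine squeeze_zero' ?_ ?_ ((tendsto_const_nhds (x := (n0 : ℝ))).div_atTop hk)
    · filter_upwards [hk.eventually_gt_atTop 0] with n hn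
      positivity
    · filter_upwards [hk.eventually_gt_atTop 0] with n hn
      apply div_le_div_of_nonneg_right _ hn.le
      have : (num ω (fun _ : Fin 1 => 0) n) ≤ n0 := by
        unfold num
        calc _ ≤ (range n0).card := by
              apply card_le_card
              intro p hp
              rw [mem_range]
              by_contra hc
              push Not at hc
              have h2 := (mem_filter.mp hp).2 0
              exact hn0 p hc (by simpa using h2)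
          _ = n0 := card_range _
      exact_mod_cast this
  exact zero_ne_one (tendsto_nhds_unique h1 (h _))

theorem Φ2_freq (hq : Tendsto q atTop atTop) (l : ℕ) {ω : ℕ → ℕ} (h0 : ∃ᶠ n in atTop, ω n = 0) :
    ∃ᶠ n in atTop, Φ2 q l ω n + 1 < q n := by
  refine (h0.and_eventually (hq.eventually_ge_atTop 4)).mono ?_
  rintro n ⟨h1, h2⟩
  have h3 : 2 ≤ Nat.sqrt (q n) := by rw [Nat.le_sqrt]; omega
  have h4 : Nat.sqrt (q n) * Nat.sqrt (q n) ≤ q n := Nat.sqrt_le _
  unfold Φ2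
  split_ifs
  · nlinarith
  · rw [h1]; omega

theorem Φ2_occ_imp (l : ℕ) {ω : ℕ → ℕ} {k : ℕ} (B : Fin k → ℕ) (p : ℕ)
    (h : ∀ i : Fin k, B i < Nat.sqrt (q (p + i))) (h2 : Occ (Φ2 q l ω) B p) : Occ ω B p := by
  intro i
  have h3 := h2 i
  have h4 := h i
  unfold Φ2 at h3
  split_ifs at h3 with h5
  · omega
  · exact h3

theorem Φ2_occ {l : ℕ} {ω : ℕ → ℕ} {k : ℕ} (hlk : l ≤ k) (hl : 1 ≤ l) (B : Fin k → ℕ) (p : ℕ)
    (h : ∀ i : Fin k, B i < Nat.sqrt (q (p + i))) :
    Occ (Φ2 q l ω) B p ↔ Occ ω B p := by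
  refine ⟨Φ2_occ_imp l B p h, ?_⟩
  intro h2 i
  have h3 := h2 i
  have hL : Long q l ω (p + i) := by
    refine ⟨min (p + i) (p + k - l), min_le_left _ _, ?_, ?_⟩
    · have := i.2
      omega
    · intro j h4 h5
      have h6 : p ≤ j := by omega
      have h7 : j < p + k := by have := i.2; omega
      have h8 := h2 ⟨j - p, by omega⟩
      have h9 := h ⟨j - p, by omega⟩
      simp only at h8 h9
      rw [Nat.add_sub_cancel' h6] at h8 h9
      omega
  unfold Φ2
  rw [if_neg (by tauto)]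
  exact h3

/-- zeros in a window -/
def D (q : ℕ → ℕ) (j : ℕ) (p : ℕ) : Set (ℕ → ℕ) :=
  (blk (fun _ : Fin j => 0) p ∩ {ω | ω (p + j) ∈ {d | d < Nat.sqrt (q (p + j))}}) ∪
  (blk (fun _ : Fin j => 0) p ∩ {ω | ω (p - 1) ∈ {d | d < Nat.sqrt (q (p - 1))}})

theorem Φ2_D {l : ℕ} {ω : ℕ → ℕ} {j : ℕ} (hj : 1 ≤ j) (hjl : j < l) (p : ℕ)
    (h : ∀ i : Fin j, 0 < Nat.sqrt (q (p + i))) (h2 : Occ (Φ2 q l ω) (fun _ : Fin j => 0) p) :
    ω ∈ D q j p := by
  have h3 : Occ ω (fun _ : Fin j => 0) p := Φ2_occ_imp l _ p h h2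
  have h4 := h2 ⟨0, hj⟩
  have h5 := h ⟨0, hj⟩
  have h6 := h3 ⟨0, hj⟩
  simp only [add_zero] at h4 h5 h6
  have hL : Long q l ω p := by
    by_contra hcon
    unfold Φ2 at h4
    rw [if_pos ⟨h6, hcon⟩] at h4
    omega
  obtain ⟨a, h7, h8, h9⟩ := hL
  rcases Nat.lt_or_ge a p with h10 | h10
  · right
    exact ⟨h3, h9 (p - 1) (by omega) (by omega)⟩
  · left
    exact ⟨h3, h9 (p + j) (by omega) (by omega)⟩

theorem measurable_coord (m : ℕ) (S : Set ℕ) : MeasurableSet {ω : ℕ → ℕ | ω m ∈ S} :=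
  (measurable_pi_apply m) (MeasurableSet.of_discrete (s := S))

theorem measurable_D (j p : ℕ) : MeasurableSet (D q j p) :=
  ((measurable_blk _ _).inter (measurable_coord _ _)).union
    ((measurable_blk _ _).inter (measurable_coord _ _))

theorem μ_blk_coord {k : ℕ} (B : Fin k → ℕ) (p m : ℕ) (hm : m ∉ Ico p (p + k)) (S : Set ℕ) :
    (μ q).real (blk B p ∩ {ω | ω m ∈ S}) = (μ q).real (blk B p) * (unif (q m)).real S := by
  classical
  have h1 : blk B p ∩ {ω | ω m ∈ S} = Set.pi (insert m (Ico p (p + k)) : Finset ℕ)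
      (fun n => if n = m then S else {ext0 B (n - p)}) := by
    rw [blk_eq]
    ext ω
    simp only [Set.mem_inter_iff, Set.mem_pi, Finset.mem_coe, mem_insert, Set.mem_ofPred_eq]
    constructor
    · rintro ⟨h2, h3⟩ n hn
      by_cases h4 : n = m
      · rw [if_pos h4, h4]; exact h3
      · rw [if_neg h4]
        exact h2 n (hn.resolve_left h4)
    · intro h
      refine ⟨fun n hn => ?_, ?_⟩
      · have := h n (Or.inr hn)
        rwa [if_neg (by rintro rfl; exact hm hn)] at this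
      · have := h m (Or.inl rfl)
        rwa [if_pos rfl] at this
  rw [h1, μ_real_pi, Finset.prod_insert hm, μ_blk, mul_comm]
  congr 1
  · apply Finset.prod_congr rfl
    intro n hn
    rw [if_neg (by rintro rfl; exact hm hn)]
  · rw [if_pos rfl]

/-- small quantity -/
noncomputable def eps (q : ℕ → ℕ) (n : ℕ) : ℝ := (Nat.sqrt (q n) : ℝ) / q n

theorem eps_nonneg (n : ℕ) : 0 ≤ eps q n := by unfold eps; positivity

theorem tendsto_eps (hq2 : ∀ n, 2 ≤ q n) (hq : Tendsto q atTop atTop) :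
    Tendsto (eps q) atTop (𝓝 0) := by
  have h1 : Tendsto (fun n => Nat.sqrt (q n)) atTop atTop := by
    rw [tendsto_atTop]
    intro b
    filter_upwards [hq.eventually_ge_atTop (b * b)] with n hn
    rwa [Nat.le_sqrt]
  have h2 : Tendsto (fun n => 1 / (Nat.sqrt (q n) : ℝ)) atTop (𝓝 0) :=
    tendsto_one_div_atTop_nhds_zero_nat.comp h1
  refine squeeze_zero (fun n => eps_nonneg n) (fun n => ?_) h2
  have h3 : 0 < Nat.sqrt (q n) := Nat.sqrt_pos.mpr (by have := hq2 n; omega)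
  have h4 : (0 : ℝ) < Nat.sqrt (q n) := by exact_mod_cast h3
  have h5 : (Nat.sqrt (q n) : ℝ) * Nat.sqrt (q n) ≤ q n := by exact_mod_cast Nat.sqrt_le (q n)
  have h6 : (0 : ℝ) < q n := by have := hq2 n; exact_mod_cast (by omega : 0 < q n)
  unfold eps
  rw [div_le_div_iff₀ h6 h4]
  linarith

theorem unif_real_le (hq2 : ∀ n, 2 ≤ q n) (m : ℕ) :
    (unif (q m)).real {d | d < Nat.sqrt (q m)} ≤ eps q m := by
  have h1 := unif_lt_le (show q m ≠ 0 by have := hq2 m; omega) (Nat.sqrt (q m))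
  have h2 : ((Nat.sqrt (q m) : ℝ≥0∞) / (q m : ℝ≥0∞)) ≠ ⊤ := by
    apply ENNReal.div_ne_top (by simp)
    have := hq2 m
    exact_mod_cast (by omega : q m ≠ 0)
  have h3 := ENNReal.toReal_mono h2 h1
  rw [ENNReal.toReal_div, ENNReal.toReal_natCast, ENNReal.toReal_natCast] at h3
  exact h3

theorem μ_D (hq2 : ∀ n, 2 ≤ q n) (j p : ℕ) (hp : 1 ≤ p) :
    (μ q).real (D q j p) ≤ (1 / ∏ i ∈ range j, (q (p + i) : ℝ)) * (eps q (p + j) + eps q (p - 1)) := by
  have hb : (μ q).real (blk (fun _ : Fin j => 0) p) = 1 / ∏ i ∈ range j, (q (p + i) : ℝ) :=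
    μ_blk_val _ p (fun i => by have := hq2 (p + i); omega)
  have h0 : (0 : ℝ) ≤ 1 / ∏ i ∈ range j, (q (p + i) : ℝ) := by positivity
  calc (μ q).real (D q j p) ≤ _ + _ := measureReal_union_le _ _
    _ ≤ (1 / ∏ i ∈ range j, (q (p + i) : ℝ)) * eps q (p + j) +
        (1 / ∏ i ∈ range j, (q (p + i) : ℝ)) * eps q (p - 1) := by
        apply add_le_add
        · rw [μ_blk_coord _ _ _ (by simp), hb]
          exact mul_le_mul_of_nonneg_left (unif_real_le hq2 _) h0
        · rw [μ_blk_coord _ _ _ (by simp; omega), hb]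
          exact mul_le_mul_of_nonneg_left (unif_real_le hq2 _) h0
    _ = _ := by ring

theorem sum_Icc_eq (f : ℕ → ℝ) (n : ℕ) : ∑ p ∈ Icc 1 n, f p = ∑ i ∈ range n, f (i + 1) := by
  induction n with
  | zero => simp
  | succ n ih => rw [Finset.sum_Icc_succ_top (by omega), Finset.sum_range_succ, ih]

theorem tendsto_D (hq2 : ∀ n, 2 ≤ q n) (hq : Tendsto q atTop atTop) (j : ℕ)
    (hk : Tendsto (wt q j) atTop atTop) :
    Tendsto (fun n => (∑ p ∈ Icc 1 n, (μ q).real (D q j p)) / wt q j n) atTop (𝓝 0) := by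
  set π : ℕ → ℝ := fun p => 1 / ∏ i ∈ range j, (q (p + 1 + i) : ℝ) with hπ
  have hπ0 : ∀ p, 0 < π p := by
    intro p
    simp only [hπ]
    apply one_div_pos.mpr
    apply Finset.prod_pos
    intro i _
    have := hq2 (p + 1 + i)
    exact_mod_cast (by omega : 0 < q (p + 1 + i))
  have hwt : ∀ n, wt q j n = ∑ i ∈ range n, π i := fun n => sum_Icc_eq _ n
  have h1 : (fun p => π p * (eps q (p + 1 + j) + eps q p)) =o[atTop] π := by
    rw [Asymptotics.isLittleO_iff_tendsto (fun p h => absurd h (hπ0 p).ne')]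
    have h2 : Tendsto (fun p => eps q (p + (1 + j)) + eps q p) atTop (𝓝 0) := by
      have := ((tendsto_eps hq2 hq).comp (tendsto_add_atTop_nat (1 + j))).add (tendsto_eps hq2 hq)
      simpa [Function.comp_def] using this
    refine h2.congr fun p => ?_
    rw [mul_div_assoc, mul_comm, div_mul_cancel₀ _ (hπ0 p).ne', add_assoc]
  have h3 : Tendsto (fun n => ∑ i ∈ range n, π i) atTop atTop := by
    refine hk.congr fun n => hwt n
  have h4 := h1.sum_range (fun p => (hπ0 p).le) h3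
  have h5 := h4.tendsto_div_nhds_zero
  refine squeeze_zero' ?_ ?_ h5
  · filter_upwards [hk.eventually_gt_atTop 0] with n hn
    positivity
  · filter_upwards [hk.eventually_gt_atTop 0] with n hn
    rw [← hwt]
    apply div_le_div_of_nonneg_right _ hn.le
    rw [sum_Icc_eq]
    apply Finset.sum_le_sum
    intro i _
    have := μ_D hq2 j (i + 1) (by omega)
    simpa [hπ] using this

theorem liminf_zero {Ω : Type*} [MeasurableSpace Ω] (m : Measure Ω) (f : ℕ → Ω → ℝ≥0∞)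
    (hf : ∀ n, Measurable (f n)) (h : Tendsto (fun n => ∫⁻ ω, f n ω ∂m) atTop (𝓝 0)) :
    ∀ᵐ ω ∂m, liminf (fun n => f n ω) atTop = 0 := by
  have h1 := lintegral_liminf_le (μ := m) (u := atTop) hf
  rw [h.liminf_eq] at h1
  have h2 : ∫⁻ ω, liminf (fun n => f n ω) atTop ∂m = 0 := le_antisymm h1 zero_le
  rw [lintegral_eq_zero_iff (Measurable.liminf hf)] at h2
  exact h2

theorem not_normal (hq2 : ∀ n, 2 ≤ q n) (hq : Tendsto q atTop atTop) {l j : ℕ} (hj : 1 ≤ j) (hjl : j < l)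
    (hk : Tendsto (wt q j) atTop atTop) :
    ∀ᵐ ω ∂μ q, ¬ Tendsto (fun n => (num (Φ2 q l ω) (fun _ : Fin j => 0) n : ℝ) / wt q j n) atTop (𝓝 1) := by
  classical
  set f : ℕ → (ℕ → ℕ) → ℝ≥0∞ := fun n ω => ENNReal.ofReal ((cnt (D q j) ω n : ℝ) / wt q j n) with hf
  have hcm : ∀ n, Measurable fun ω => (cnt (D q j) ω n : ℝ) := by
    intro n
    simp_rw [cnt_eq]
    exact Finset.measurable_fun_sum _ fun p _ => measurable_const.indicator (measurable_D _ _)
  have hfm : ∀ n, Measurable (f n) := fun n =>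
    ENNReal.measurable_ofReal.comp ((hcm n).div_const _)
  have hint : ∀ n, Integrable (fun ω => (cnt (D q j) ω n : ℝ)) (μ q) := by
    intro n
    simp_rw [cnt_eq]
    exact integrable_finsetSum _ fun p _ => (integrable_const (1 : ℝ)).indicator (measurable_D _ _)
  have hwt0 : ∀ n, 0 ≤ wt q j n := by
    intro n
    unfold wt
    positivity
  have hval : ∀ n, ∫⁻ ω, f n ω ∂μ q =
      ENNReal.ofReal ((∑ p ∈ Icc 1 n, (μ q).real (D q j p)) / wt q j n) := by
    intro n
    simp only [hf]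
    rw [← ofReal_integral_eq_lintegral_ofReal ((hint n).div_const _)
      (ae_of_all _ fun ω => div_nonneg (Nat.cast_nonneg _) (hwt0 n))]
    congr 1
    rw [integral_div]
    congr 1
    simp_rw [cnt_eq]
    rw [integral_finsetSum _ (fun p _ => (integrable_const (1 : ℝ)).indicator (measurable_D _ _))]
    apply Finset.sum_congr rfl
    intro p _
    rw [integral_indicator (measurable_D _ _)]
    simp
  have hlim : Tendsto (fun n => ∫⁻ ω, f n ω ∂μ q) atTop (𝓝 0) := by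
    simp_rw [hval]
    have := ENNReal.tendsto_ofReal (tendsto_D hq2 hq j hk)
    simpa using this
  have hsq : Tendsto (fun n => Nat.sqrt (q n)) atTop atTop := by
    rw [tendsto_atTop]
    intro b
    filter_upwards [hq.eventually_ge_atTop (b * b)] with n hn
    rwa [Nat.le_sqrt]
  obtain ⟨p0, hp0⟩ := eventually_block (fun n => Nat.sqrt (q n)) hsq (fun _ : Fin j => 0)
  filter_upwards [liminf_zero (μ q) f hfm hlim] with ω hω hcon
  have hle : ∀ n, (num (Φ2 q l ω) (fun _ : Fin j => 0) n : ℝ) ≤ p0 + cnt (D q j) ω n := by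
    intro n
    have h1 : num (Φ2 q l ω) (fun _ : Fin j => 0) n ≤ p0 + cnt (D q j) ω n := by
      unfold num cnt
      calc _ ≤ (range p0 ∪ ((Icc 1 n).filter fun p => ω ∈ D q j p)).card := by
            apply card_le_card
            intro p hp
            rw [mem_filter] at hp
            rw [mem_union, mem_range, mem_filter]
            rcases Nat.lt_or_ge p p0 with h2 | h2
            · left; exact h2
            · right
              exact ⟨hp.1, Φ2_D hj hjl p (hp0 p h2) hp.2⟩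
        _ ≤ (range p0).card + _ := card_union_le _ _
        _ = _ := by rw [card_range]
    exact_mod_cast h1
  have h2 : Tendsto (fun n => (num (Φ2 q l ω) (fun _ : Fin j => 0) n : ℝ) / wt q j n - p0 / wt q j n)
      atTop (𝓝 1) := by
    have := hcon.sub ((tendsto_const_nhds (x := (p0 : ℝ))).div_atTop hk)
    simpa using this
  have h3 := (ENNReal.tendsto_ofReal h2).liminf_eq
  have h4 : liminf (fun n => ENNReal.ofReal ((num (Φ2 q l ω) (fun _ : Fin j => 0) n : ℝ) / wt q j n -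
      p0 / wt q j n)) atTop ≤ liminf (fun n => f n ω) atTop := by
    have h5 : ∀ᶠ n in atTop, ENNReal.ofReal ((num (Φ2 q l ω) (fun _ : Fin j => 0) n : ℝ) / wt q j n -
        p0 / wt q j n) ≤ f n ω := by
      filter_upwards [hk.eventually_gt_atTop 0] with n hn
      apply ENNReal.ofReal_le_ofReal
      rw [← sub_div]
      apply div_le_div_of_nonneg_right _ hn.le
      linarith [hle n]
    exact liminf_le_liminf h5
  rw [h3, hω] at h4
  simp at h4

theorem q2 (hq2 : ∀ n, 2 ≤ q n) (hq : Tendsto q atTop atTop)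
    (hk : ∀ k, 1 ≤ k → Tendsto (wt q k) atTop atTop) (l : ℕ) (hl : 1 ≤ l) :
    dimH ({x : ℝ | ∀ k, l ≤ k → ∀ B : Fin k → ℕ,
        Tendsto (fun n => (num (digit q x) B n : ℝ) / wt q k n) atTop (𝓝 1)} \
      {x : ℝ | ∃ j, 1 ≤ j ∧ j < l ∧ ∀ B : Fin j → ℕ,
        Tendsto (fun n => (num (digit q x) B n : ℝ) / wt q j n) atTop (𝓝 1)}) = 1 := by
  apply le_antisymm
  · calc _ ≤ dimH (Set.univ : Set ℝ) := dimH_mono (Set.subset_univ _)
      _ = 1 := Real.dimH_univ
  set A : Set (ℕ → ℕ) := {ω | ω ∈ Good q ∧ ∀ j, 1 ≤ j → j < l →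
    ¬ Tendsto (fun n => (num (Φ2 q l ω) (fun _ : Fin j => 0) n : ℝ) / wt q j n) atTop (𝓝 1)} with hA
  have hae : ∀ᵐ ω ∂μ q, ω ∈ A := by
    have h1 : ∀ᵐ ω ∂μ q, ∀ j, 1 ≤ j → j < l →
        ¬ Tendsto (fun n => (num (Φ2 q l ω) (fun _ : Fin j => 0) n : ℝ) / wt q j n) atTop (𝓝 1) := by
      rw [ae_all_iff]
      intro j
      by_cases h : 1 ≤ j ∧ j < l
      · filter_upwards [not_normal hq2 hq h.1 h.2 (hk j h.1)] with ω hω _ _ using hω
      · exact Eventually.of_forall fun ω h2 h3 => absurd ⟨h2, h3⟩ h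
    filter_upwards [ae_good hq2 hq hk, h1] with ω h2 h3
    exact ⟨h2, h3⟩
  have hpos : μ q A ≠ 0 := by
    intro h0
    have h2 : μ q Set.univ = 0 := by
      refine measure_mono_null (t := A ∪ Aᶜ) (by simp) ?_
      rw [measure_union_null_iff]
      exact ⟨h0, hae⟩
    simp at h2
  have hzf : ∀ ω ∈ A, ∃ᶠ n in atTop, ω n = 0 := fun ω hω =>
    zero_freq (hk 1 le_rfl) (hω.1.2 1 le_rfl)
  have hd := dim_one hq2 hq (Φ2 q l) A hpos (fun ω hω n => Φ2_lt hq2 l hω.1.1 n)
    (fun ω hω => Φ2_freq hq l (hzf ω hω)) (fun _ _ => 0) (fun ω _ n => Φ2_g l ω n)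
  rw [← hd]
  apply dimH_mono
  rintro _ ⟨ω, hω, rfl⟩
  have h1 : ∀ n, Φ2 q l ω n < q n := Φ2_lt hq2 l hω.1.1
  have h2 := Φ2_freq hq l (hzf ω hω)
  have hsq : Tendsto (fun n => Nat.sqrt (q n)) atTop atTop := by
    rw [tendsto_atTop]
    intro b
    filter_upwards [hq.eventually_ge_atTop (b * b)] with n hn
    rwa [Nat.le_sqrt]
  refine ⟨?_, ?_⟩
  · intro k hk1 B
    obtain ⟨p0, hp0⟩ := eventually_block (fun n => Nat.sqrt (q n)) hsq B
    simp only [num_digit hq2 h1 h2]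
    exact tendsto_compare _ ω B p0 (fun p hp => Φ2_occ hk1 hl B p (hp0 p hp)) (hk k (hl.trans hk1))
      (hω.1.2 k (hl.trans hk1) B)
  · rintro ⟨j, hj, hjl, h3⟩
    have h4 := h3 (fun _ => 0)
    simp only [num_digit hq2 h1 h2] at h4
    exact hω.2 j hj hjl h4

end Pool.Agent.X191.BA
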