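import Pool.Agent.X191.NS.Expansion

set_option autoImplicit false

open Finset Filter Topology MeasureTheory
open scoped ENNReal NNReal

namespace Pool.Agent.X191.BA

open Pool.Agent.X191.NS (P digit P_zero P_succ P_pos two_pow_le_P P_mono floor_step digit_lt)

variable {q : ℕ → ℕ}

/-- the numerator of the partial sum `E_1/q_1 + ⋯ + E_n/(q_1⋯q_n)` -/
def V (q e : ℕ → ℕ) : ℕ → ℕ
  | 0 => 0
  | n + 1 => V q e n * q (n + 1) + e (n + 1)

/-- the number with the digits `e` -/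
noncomputable def val (q e : ℕ → ℕ) : ℝ := ⨆ n, (V q e n : ℝ) / P q n

theorem V_div_mono (hq : ∀ n, 2 ≤ q n) (e : ℕ → ℕ) : Monotone fun n => (V q e n : ℝ) / P q n := by
  apply monotone_nat_of_le_succ
  intro n
  have h1 : (0 : ℝ) < P q n := by exact_mod_cast P_pos hq n
  have h2 : (0 : ℝ) < q (n + 1) := by have := hq (n + 1); exact_mod_cast (by omega : 0 < q (n + 1))
  rw [P_succ, V]
  push_cast
  rw [div_le_div_iff₀ h1 (by positivity)]
  nlinarith [(Nat.cast_nonneg (e (n + 1)) : (0 : ℝ) ≤ e (n + 1)), mul_nonneg (Nat.cast_nonneg (e (n + 1)) : (0 : ℝ) ≤ e (n + 1)) h1.le]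

theorem R_step (hq : ∀ n, 2 ≤ q n) {e : ℕ → ℕ} (n : ℕ) (he : e (n + 1) < q (n + 1)) :
    ((V q e (n + 1) : ℝ) + 1) / P q (n + 1) ≤ ((V q e n : ℝ) + 1) / P q n := by
  have h1 : (0 : ℝ) < P q n := by exact_mod_cast P_pos hq n
  have h2 : (0 : ℝ) < q (n + 1) := by have := hq (n + 1); exact_mod_cast (by omega : 0 < q (n + 1))
  have h3 : (e (n + 1) : ℝ) + 1 ≤ q (n + 1) := by exact_mod_cast he
  rw [P_succ, V]
  push_cast
  rw [div_le_div_iff₀ (by positivity) h1]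
  nlinarith [mul_le_mul_of_nonneg_right h3 h1.le]

theorem R_step_lt (hq : ∀ n, 2 ≤ q n) {e : ℕ → ℕ} (n : ℕ) (he : e (n + 1) + 1 < q (n + 1)) :
    ((V q e (n + 1) : ℝ) + 1) / P q (n + 1) < ((V q e n : ℝ) + 1) / P q n := by
  have h1 : (0 : ℝ) < P q n := by exact_mod_cast P_pos hq n
  have h2 : (0 : ℝ) < q (n + 1) := by have := hq (n + 1); exact_mod_cast (by omega : 0 < q (n + 1))
  have h3 : (e (n + 1) : ℝ) + 1 < q (n + 1) := by exact_mod_cast he
  rw [P_succ, V]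
  push_cast
  rw [div_lt_div_iff₀ (by positivity) h1]
  nlinarith [mul_lt_mul_of_pos_right h3 h1]

theorem R_anti (hq : ∀ n, 2 ≤ q n) {e : ℕ → ℕ} (he : ∀ n, e n < q n) :
    Antitone fun n => ((V q e n : ℝ) + 1) / P q n :=
  antitone_nat_of_succ_le fun n => R_step hq n (he _)

theorem L_le_R (hq : ∀ n, 2 ≤ q n) {e : ℕ → ℕ} (he : ∀ n, e n < q n) (m n : ℕ) :
    (V q e m : ℝ) / P q m ≤ ((V q e n : ℝ) + 1) / P q n := by
  rcases le_total m n with h | h
  · refine (V_div_mono hq e h).trans ?_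
    have h1 : (0 : ℝ) < P q n := by exact_mod_cast P_pos hq n
    exact div_le_div_of_nonneg_right (by linarith) h1.le
  · refine le_trans ?_ (R_anti hq he h)
    have h1 : (0 : ℝ) < P q m := by exact_mod_cast P_pos hq m
    exact div_le_div_of_nonneg_right (by linarith) h1.le

theorem L_le_val (hq : ∀ n, 2 ≤ q n) {e : ℕ → ℕ} (he : ∀ n, e n < q n) (n : ℕ) :
    (V q e n : ℝ) / P q n ≤ val q e :=
  le_ciSup (f := fun n => (V q e n : ℝ) / P q n)
    ⟨((V q e 0 : ℝ) + 1) / P q 0, by rintro _ ⟨m, rfl⟩; exact L_le_R hq he m 0⟩ n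

theorem val_le_R (hq : ∀ n, 2 ≤ q n) {e : ℕ → ℕ} (he : ∀ n, e n < q n) (n : ℕ) :
    val q e ≤ ((V q e n : ℝ) + 1) / P q n := ciSup_le fun m => L_le_R hq he m n

theorem val_lt_R (hq : ∀ n, 2 ≤ q n) {e : ℕ → ℕ} (he : ∀ n, e n < q n)
    (hf : ∃ᶠ n in atTop, e n + 1 < q n) (n : ℕ) :
    val q e < ((V q e n : ℝ) + 1) / P q n := by
  obtain ⟨m, hm, hm2⟩ := frequently_atTop.mp hf (n + 1)
  obtain ⟨j, rfl⟩ : ∃ j, m = j + 1 := ⟨m - 1, by omega⟩
  calc val q e ≤ _ := val_le_R hq he (j + 1)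
    _ < _ := R_step_lt hq j hm2
    _ ≤ _ := R_anti hq he (by omega : n ≤ j)

theorem floor_val (hq : ∀ n, 2 ≤ q n) {e : ℕ → ℕ} (he : ∀ n, e n < q n)
    (hf : ∃ᶠ n in atTop, e n + 1 < q n) (n : ℕ) :
    ⌊(P q n : ℝ) * val q e⌋ = V q e n := by
  have h1 : (0 : ℝ) < P q n := by exact_mod_cast P_pos hq n
  rw [Int.floor_eq_iff]
  have h2 := L_le_val hq he n
  have h3 := val_lt_R hq he hf n
  rw [div_le_iff₀ h1] at h2
  rw [lt_div_iff₀ h1] at h3
  push_cast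
  constructor <;> linarith

theorem digit_val (hq : ∀ n, 2 ≤ q n) {e : ℕ → ℕ} (he : ∀ n, e n < q n)
    (hf : ∃ᶠ n in atTop, e n + 1 < q n) (n : ℕ) (hn : 1 ≤ n) :
    digit q (val q e) n = e n := by
  obtain ⟨j, rfl⟩ : ∃ j, n = j + 1 := ⟨n - 1, by omega⟩
  unfold digit
  rw [floor_val hq he hf, V]
  have h1 : ((V q e j * q (j + 1) + e (j + 1) : ℕ) : ℤ) % (q (j + 1) : ℤ) = ((e (j + 1) : ℕ) : ℤ) := by
    rw [← Int.natCast_mod, Nat.add_comm, Nat.add_mul_mod_self_right, Nat.mod_eq_of_lt (he _)]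
  rw [h1]
  simp

theorem V_inj {e f : ℕ → ℕ} (he : ∀ n, e n < q n) (hf : ∀ n, f n < q n) :
    ∀ n, V q e n = V q f n → ∀ i, 1 ≤ i → i ≤ n → e i = f i := by
  intro n
  induction n with
  | zero => intro _ i h1 h2; omega
  | succ n ih =>
    intro h i h1 h2
    simp only [V] at h
    have hpos : 0 < q (n + 1) := lt_of_le_of_lt (Nat.zero_le _) (he (n + 1))
    have h3 : V q e n = V q f n := by
      have := congrArg (· / q (n + 1)) h
      simpa [mul_comm _ (q (n + 1)), Nat.mul_add_div hpos, Nat.div_eq_of_lt (he (n + 1)),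
        Nat.div_eq_of_lt (hf (n + 1))] using this
    rcases Nat.lt_or_ge i (n + 1) with h4 | h4
    · exact ih h3 i h1 (by omega)
    · have : i = n + 1 := by omega
      subst this
      rw [h3] at h
      omega

end Pool.Agent.X191.BA
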